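import Mathlib

namespace Pool.Agent.R114.RankTwo

open Finset Equiv

section Count

variable {ι : Type*} [Fintype ι] [DecidableEq ι]

theorem exists_perm_map (S T : Finset ι) (h : S.card = T.card) :
    ∃ τ : Perm ι, S.map τ.toEmbedding = T := by
  classical
  let e : {x // x ∈ S} ≃ {x // x ∈ T} := Finset.equivOfCardEq h
  refine ⟨e.extendSubtype, ?_⟩
  apply Finset.eq_of_subset_of_card_le
  · intro y hy
    simp only [Finset.mem_map_equiv] at hy
    have := e.extendSubtype_mem _ hy
    simpa using this
  · simp [h]

theorem card_fiber_eq (S T : Finset ι) (h : S.card = T.card) :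
    (univ.filter (fun σ : Perm ι => S.map σ.toEmbedding = T)).card =
      (univ.filter (fun σ : Perm ι => S.map σ.toEmbedding = S)).card := by
  classical
  obtain ⟨τ, hτ⟩ := exists_perm_map S T h
  apply Finset.card_bij' (fun σ _ => τ⁻¹ * σ) (fun σ _ => τ * σ)
  · intro σ hσ
    simp only [Finset.mem_filter, Finset.mem_univ, true_and] at hσ ⊢
    have : S.map (τ⁻¹ * σ).toEmbedding = (S.map σ.toEmbedding).map (τ⁻¹).toEmbedding := by
      rw [Finset.map_map]; rfl
    rw [this, hσ, ← hτ, Finset.map_map]
    ext x
    simp
  · intro σ hσ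
    simp only [Finset.mem_filter, Finset.mem_univ, true_and] at hσ ⊢
    have : S.map (τ * σ).toEmbedding = (S.map σ.toEmbedding).map τ.toEmbedding := by
      rw [Finset.map_map]; rfl
    rw [this, hσ, hτ]
  · intro σ _; simp
  · intro σ _; simp

theorem card_fiber (S T : Finset ι) (h : S.card = T.card) :
    (univ.filter (fun σ : Perm ι => S.map σ.toEmbedding = T)).card =
      S.card.factorial * (Fintype.card ι - S.card).factorial := by
  classical
  have hsum : ∑ T ∈ powersetCard S.card (univ : Finset ι),
      (univ.filter (fun σ : Perm ι => S.map σ.toEmbedding = T)).card =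
        (Fintype.card ι).factorial := by
    rw [← Finset.card_eq_sum_card_fiberwise, Finset.card_univ, Fintype.card_perm]
    intro σ _
    simp [Finset.mem_powersetCard]
  have h2 : ∑ T ∈ powersetCard S.card (univ : Finset ι),
      (univ.filter (fun σ : Perm ι => S.map σ.toEmbedding = T)).card =
      (Fintype.card ι).choose S.card *
        (univ.filter (fun σ : Perm ι => S.map σ.toEmbedding = S)).card := by
    rw [Finset.sum_congr rfl (g := fun _ =>
      (univ.filter (fun σ : Perm ι => S.map σ.toEmbedding = S)).card)]
    · rw [Finset.sum_const, Finset.card_powersetCard, Finset.card_univ, smul_eq_mul]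
    · intro T hT
      rw [Finset.mem_powersetCard] at hT
      exact card_fiber_eq S T hT.2.symm
  have hle : S.card ≤ Fintype.card ι := Finset.card_le_univ S
  have h3 := Nat.choose_mul_factorial_mul_factorial hle
  rw [card_fiber_eq S T h]
  have hpos : 0 < (Fintype.card ι).choose S.card := Nat.choose_pos hle
  apply Nat.eq_of_mul_eq_mul_left hpos
  rw [← h2, hsum, ← mul_assoc, h3]

theorem sum_perm_map {R : Type*} [CommSemiring R] (S : Finset ι) (F : Finset ι → R) :
    ∑ σ : Perm ι, F (S.map σ.toEmbedding) =
      ((S.card.factorial * (Fintype.card ι - S.card).factorial : ℕ) : R) *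
        ∑ T ∈ powersetCard S.card (univ : Finset ι), F T := by
  classical
  rw [← Finset.sum_fiberwise_of_maps_to (s := (univ : Finset (Perm ι)))
    (t := powersetCard S.card (univ : Finset ι)) (g := fun σ => S.map σ.toEmbedding)]
  · rw [Finset.mul_sum]
    apply Finset.sum_congr rfl
    intro T hT
    rw [Finset.mem_powersetCard] at hT
    rw [← card_fiber S T hT.2.symm, Finset.sum_congr rfl (g := fun _ => F T)]
    · rw [Finset.sum_const, nsmul_eq_mul]
    · intro σ hσ
      rw [Finset.mem_filter] at hσ
      rw [hσ.2]
  · intro σ _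
    simp [Finset.mem_powersetCard]

/-- The k-th coefficient of `∏ (a_i X + b_i)`. -/
noncomputable def cf {R : Type*} [CommSemiring R] (a b : ι → R) (k : ℕ) : R :=
  (∏ i, (Polynomial.C (a i) * Polynomial.X + Polynomial.C (b i))).coeff k

theorem cf_eq {R : Type*} [CommSemiring R] (a b : ι → R) (k : ℕ) :
    cf a b k = ∑ T ∈ powersetCard k (univ : Finset ι), (∏ i ∈ T, a i) * ∏ i ∈ univ \ T, b i := by
  classical
  unfold cf
  rw [Finset.prod_add, Polynomial.finsetSum_coeff]
  have h1 : ∀ T ∈ (univ : Finset ι).powerset,
      ((∏ i ∈ T, (Polynomial.C (a i) * Polynomial.X)) * ∏ i ∈ univ \ T, Polynomial.C (b i)).coeff k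
        = if k = T.card then (∏ i ∈ T, a i) * ∏ i ∈ univ \ T, b i else 0 := by
    intro T _
    rw [Finset.prod_mul_distrib, Finset.prod_const, ← map_prod, ← map_prod]
    rw [mul_assoc, mul_comm (Polynomial.X ^ T.card), ← mul_assoc, ← map_mul,
      Polynomial.coeff_C_mul_X_pow]
  rw [Finset.sum_congr rfl h1, ← Finset.sum_filter]
  apply Finset.sum_congr
  · ext T
    simp [Finset.mem_powersetCard, eq_comm]
  · intro T _; rfl

theorem permanent_rank_two {R : Type*} [CommSemiring R] (a b a' b' : ι → R) :
    (Matrix.of fun i j => a i * a' j + b i * b' j).permanent =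
      ∑ k ∈ range (Fintype.card ι + 1),
        ((k.factorial * (Fintype.card ι - k).factorial : ℕ) : R) * (cf a b k * cf a' b' k) := by
  classical
  unfold Matrix.permanent
  simp only [Matrix.of_apply]
  have h1 : ∀ σ : Perm ι, ∏ i, (a (σ i) * a' i + b (σ i) * b' i) =
      ∑ S ∈ (univ : Finset ι).powerset,
        (((∏ i ∈ S, a' i) * ∏ i ∈ univ \ S, b' i) *
          ((∏ i ∈ S.map σ.toEmbedding, a i) * ∏ i ∈ univ \ S.map σ.toEmbedding, b i)) := by
    intro σ
    rw [Finset.prod_add]
    apply Finset.sum_congr rfl
    intro S _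
    have h2 : univ \ S.map σ.toEmbedding = (univ \ S).map σ.toEmbedding := by
      ext x
      simp [Finset.mem_map_equiv]
    rw [h2, Finset.prod_map, Finset.prod_map, Finset.prod_mul_distrib, Finset.prod_mul_distrib]
    simp only [Equiv.coe_toEmbedding]
    ring
  simp_rw [h1]
  rw [Finset.sum_comm]
  simp_rw [← Finset.mul_sum]
  simp_rw [sum_perm_map _ (fun T => (∏ i ∈ T, a i) * ∏ i ∈ univ \ T, b i), ← cf_eq]
  rw [← Finset.sum_fiberwise_of_maps_to (s := (univ : Finset ι).powerset)
    (t := range (Fintype.card ι + 1)) (g := Finset.card)]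
  · apply Finset.sum_congr rfl
    intro k _
    rw [cf_eq a' b' k, Finset.mul_sum, Finset.mul_sum]
    apply Finset.sum_congr
    · ext T
      simp [Finset.mem_powersetCard]
    · intro T hT
      rw [Finset.mem_powersetCard] at hT
      rw [hT.2]
      ring
  · intro S _
    simp only [Finset.mem_range]
    exact Nat.lt_succ_of_le (Finset.card_le_univ S)

end Count

section Eval

/-- multiply a coefficient list by `a X + b`, carry `c`. -/
def mulLin {R : Type*} [CommSemiring R] (a b : R) : R → List R → List R
  | c, [] => [c]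
  | c, x :: L => (c + b * x) :: mulLin a b (a * x) L

/-- polynomial of a coefficient list -/
noncomputable def toPoly {R : Type*} [CommSemiring R] : List R → Polynomial R
  | [] => 0
  | x :: L => Polynomial.C x + Polynomial.X * toPoly L

theorem toPoly_mulLin {R : Type*} [CommSemiring R] (a b : R) (L : List R) (c : R) :
    toPoly (mulLin a b c L) = Polynomial.C c +
      (Polynomial.C a * Polynomial.X + Polynomial.C b) * toPoly L := by
  induction L generalizing c with
  | nil => simp [mulLin, toPoly]
  | cons x L ih =>
    rw [mulLin, toPoly, ih, toPoly]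
    simp only [map_add, map_mul]
    ring

theorem coeff_toPoly {R : Type*} [CommSemiring R] (L : List R) (k : ℕ) :
    (toPoly L).coeff k = L.getD k 0 := by
  induction L generalizing k with
  | nil => simp [toPoly]
  | cons x L ih =>
    rw [toPoly]
    cases k with
    | zero => simp
    | succ k => simp [Polynomial.coeff_X_mul, ih]

/-- list of coefficients of the product of the linear forms in a list -/
def coeffs {R : Type*} [CommSemiring R] (l : List (R × R)) : List R :=
  l.foldr (fun p L => mulLin p.1 p.2 0 L) [1]

theorem toPoly_coeffs {R : Type*} [CommSemiring R] (l : List (R × R)) :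
    toPoly (coeffs l) = (l.map fun p => Polynomial.C p.1 * Polynomial.X + Polynomial.C p.2).prod := by
  induction l with
  | nil => simp [coeffs, toPoly]
  | cons p l ih =>
    rw [coeffs, List.foldr_cons, ← coeffs, toPoly_mulLin, ih]
    simp

theorem cf_fin {R : Type*} [CommSemiring R] {m : ℕ} (v : Fin m → R × R) (k : ℕ) :
    cf (fun i => (v i).1) (fun i => (v i).2) k = (coeffs (List.ofFn v)).getD k 0 := by
  rw [← coeff_toPoly, toPoly_coeffs, cf, List.map_ofFn, List.prod_ofFn]
  rfl

end Eval

end Pool.Agent.R114.RankTwo
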